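import Pool.Agent.helper35.GS.Transfer

/-!
Problem MP_e9346b_an: for all `N ≥ 3`, `1 < p < 2* - 1`, `μ > μ₀`, `ν > 0` the linearly coupled
critical system has a ground state solution at the threshold coupling `λ = λ_{μ,ν}`.
-/

set_option autoImplicit false

namespace Pool.Agent.Results.MP_e9346b_an.ThresholdGroundState

open Pool.Agent.CoupledSystem

/-- For every `N ≥ 3`, `1 < p < 2* - 1`, `μ > μ₀` and `ν > 0` the threshold coupling satisfies
`0 < λ_{μ,ν} < √(μν)`, and at `λ = λ_{μ,ν}` the system has a ground state solution. -/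
theorem result (N : ℕ) (hN : 3 ≤ N) (p : ℝ) (hp1 : 1 < p) (hp2 : p < crit N - 1) (μ ν : ℝ)
    (hμ : mu0 N p < μ) (hν : 0 < ν) :
    0 < lamStar N p μ ν ∧ lamStar N p μ ν < √(μ * ν) ∧
      ∃ u v : H1 N, IsGroundState p μ ν (lamStar N p μ ν) u v :=
  Pool.Agent.GroundState.final hN hp1 hp2 hμ hν

end Pool.Agent.Results.MP_e9346b_an.ThresholdGroundState
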